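import Pool.Agent.H500.TH.Stm

set_option autoImplicit false
set_option linter.unusedSectionVars false

/-!
# Part B1 of project TH (helper500): the places below (helper115)
-/

namespace Pool.Agent.H115.TH.Plc

open NumberField IsDedekindDomain

variable {K F : Type} [Field K] [NumberField K] [Field F] [NumberField F]

/-- The norm is the product of the conjugates. -/
theorem prod_emb (hc : Fintype.card (K →+* F) = Module.finrank ℚ K) (x : K) :
    ∏ t : K →+* F, t x = algebraMap ℚ F (Algebra.norm ℚ x) := by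
  classical
  have h1 := Algebra.norm_eq_prod_embeddings ℚ (AlgebraicClosure F) x
  let c : (K →+* F) → (K →ₐ[ℚ] AlgebraicClosure F) := fun t =>
    RingHom.toRatAlgHom ((algebraMap F (AlgebraicClosure F)).comp t)
  have hinj : Function.Injective c := by
    intro t t' h
    ext y
    apply (algebraMap F (AlgebraicClosure F)).injective
    exact congrArg (fun g : K →ₐ[ℚ] AlgebraicClosure F => g y) h
  have hcard : Fintype.card (K →ₐ[ℚ] AlgebraicClosure F) = Module.finrank ℚ K :=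
    AlgHom.card ℚ K (AlgebraicClosure F)
  have hbij : Function.Bijective c :=
    (Fintype.bijective_iff_injective_and_card c).2 ⟨hinj, hc.trans hcard.symm⟩
  apply (algebraMap F (AlgebraicClosure F)).injective
  rw [map_prod, ← IsScalarTower.algebraMap_apply ℚ F (AlgebraicClosure F), h1]
  exact hbij.prod_comp (fun σ : K →ₐ[ℚ] AlgebraicClosure F => σ x)

theorem plc (hc : Fintype.card (K →+* F) = Module.finrank ℚ K) (L : HeightOneSpectrum (𝓞 F))
    (w : HeightOneSpectrum (𝓞 K)) (l : ℕ) (hl : l.Prime) (hlL : (l : 𝓞 F) ∈ L.asIdeal)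
    (hlw : (l : 𝓞 K) ∈ w.asIdeal) :
    ∃ t : K →+* F, L.asIdeal.comap (RingOfIntegers.mapRingHom t) = w.asIdeal := by
  classical
  by_contra hcon
  push Not at hcon
  have hLp : L.asIdeal.IsPrime := L.isPrime
  have hW : ∀ t : K →+* F, (L.asIdeal.comap (RingOfIntegers.mapRingHom t)).IsPrime := fun t =>
    Ideal.comap_isPrime _ _
  have hpos : 0 < Fintype.card (K →+* F) := by
    rw [hc]
    exact Module.finrank_pos
  obtain ⟨t0⟩ := Fintype.card_pos_iff.1 hpos
  obtain ⟨x, hxw, hx⟩ : ∃ x ∈ w.asIdeal, ∀ t : K →+* F,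
      x ∉ L.asIdeal.comap (RingOfIntegers.mapRingHom t) := by
    by_contra hcon2
    push Not at hcon2
    have h1 : (w.asIdeal : Set (𝓞 K)) ⊆ ⋃ t ∈ ((Finset.univ : Finset (K →+* F)) : Set (K →+* F)),
        (L.asIdeal.comap (RingOfIntegers.mapRingHom t) : Set (𝓞 K)) := by
      intro x hx
      obtain ⟨t, ht⟩ := hcon2 x hx
      simp only [Set.mem_iUnion]
      exact ⟨t, Finset.mem_coe.2 (Finset.mem_univ t), ht⟩
    obtain ⟨t, -, ht⟩ := (Ideal.subset_union_prime t0 t0 (fun t _ _ _ => hW t)).1 h1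
    exact hcon t (w.isMaximal.eq_of_le (hW t).ne_top ht).symm
  -- the norm of `x`
  have h1 : ((Ideal.absNorm (Ideal.span {x}) : ℕ) : 𝓞 K) ∈ w.asIdeal := by
    have h2 := Ideal.absNorm_mem (Ideal.span {x})
    exact (Ideal.span_singleton_le_iff_mem w.asIdeal).2 hxw h2
  rw [Ideal.absNorm_span_singleton] at h1
  have h2 : l ∣ (Algebra.norm ℤ x).natAbs := by
    by_contra hnd
    have hco : Nat.Coprime l (Algebra.norm ℤ x).natAbs := (hl.coprime_iff_not_dvd).2 hnd
    have h3 : IsCoprime (l : ℤ) (((Algebra.norm ℤ x).natAbs : ℕ) : ℤ) :=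
      Nat.isCoprime_iff_coprime.2 hco
    obtain ⟨a, b, hab⟩ := h3
    have h4 : (1 : 𝓞 K) ∈ w.asIdeal := by
      have h5 : ((a * (l : ℤ) + b * (((Algebra.norm ℤ x).natAbs : ℕ) : ℤ) : ℤ) : 𝓞 K) = 1 := by
        rw [hab, Int.cast_one]
      rw [← h5, Int.cast_add, Int.cast_mul, Int.cast_mul, Int.cast_natCast, Int.cast_natCast]
      exact w.asIdeal.add_mem (w.asIdeal.mul_mem_left _ hlw) (w.asIdeal.mul_mem_left _ h1)
    exact w.isPrime.ne_top ((Ideal.eq_top_iff_one _).2 h4)
  have h3 : ((Algebra.norm ℤ x : ℤ) : 𝓞 F) ∈ L.asIdeal := by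
    obtain ⟨c, hc'⟩ := Int.natCast_dvd.2 h2
    rw [hc', Int.cast_mul, Int.cast_natCast]
    exact L.asIdeal.mul_mem_right _ hlL
  have h4 : ∏ t : K →+* F, RingOfIntegers.mapRingHom t x = ((Algebra.norm ℤ x : ℤ) : 𝓞 F) := by
    apply RingOfIntegers.ext
    have h5 := prod_emb hc (x : K)
    rw [← Algebra.coe_norm_int] at h5
    rw [map_intCast] at h5
    have h6 : algebraMap (𝓞 F) F ((Algebra.norm ℤ x : ℤ) : 𝓞 F) =
        ((Algebra.norm ℤ x : ℤ) : F) := map_intCast (algebraMap (𝓞 F) F) _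
    have h7 : algebraMap (𝓞 F) F (∏ t : K →+* F, RingOfIntegers.mapRingHom t x) =
        ∏ t : K →+* F, algebraMap (𝓞 F) F (RingOfIntegers.mapRingHom t x) :=
      map_prod (algebraMap (𝓞 F) F) _ _
    exact h7.trans (h5.trans h6.symm)
  rw [← h4] at h3
  obtain ⟨t, -, ht⟩ := (Ideal.IsPrime.prod_mem_iff (hp := hLp)).1 h3
  exact hx t ht

theorem main : Pool.Agent.H500.TH.S_Plc := fun _ _ _ _ _ _ hc L w l hl hlL hlw =>
  plc hc L w l hl hlL hlw

end Pool.Agent.H115.TH.Plc
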